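import Mathlib
import Pool.Agent.H84.VA.D
import Pool.Graph.R_seed8.R366.UC.Supp
import Pool.Graph.R_seed8.R366.UC.Coef

/-!
# Heights and places of fixed numbers in all extensions
-/

set_option autoImplicit false
set_option linter.unusedSectionVars false

open MvPolynomial NumberField Height Finset
open scoped Classical

namespace Pool.Agent.H84.VU

open Pool.Agent.H57R3.VJ Pool.Agent.H84.VA

variable {K : Type} [Field K] [NumberField K] {N : ℕ}

lemma coef_unif (c : K) : ∃ A : ℝ, 0 ≤ A ∧ ∀ (L : Type) [Field L] [NumberField L] [Algebra K L],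
    mulHeight₁ (algebraMap K L c) ≤ Real.exp (Module.finrank ℚ L * A) := by
  obtain ⟨A, hA, h⟩ := Pool.Agent.R366.UC.height_unif (k := K) (ι := Fin 2) ![c, 1] (by
    intro h
    have := congrFun h 1
    simp at this)
  refine ⟨A, hA, fun L _ _ _ => ?_⟩
  have h1 := h L
  rw [mulHeight₁_eq_mulHeight]
  convert h1 using 2
  funext i
  fin_cases i <;> simp

lemma coefs_unif (s : Finset K) : ∃ A : ℝ, 0 ≤ A ∧ ∀ (L : Type) [Field L] [NumberField L] [Algebra K L],
    ∀ c ∈ s, mulHeight₁ (algebraMap K L c) ≤ Real.exp (Module.finrank ℚ L * A) := by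
  choose A hA h using fun c : K => coef_unif c
  refine ⟨∑ c ∈ s, A c, sum_nonneg fun c _ => hA c, fun L _ _ _ c hc => ?_⟩
  refine (h c L).trans (Real.exp_le_exp.2 (mul_le_mul_of_nonneg_left ?_ (Nat.cast_nonneg _)))
  exact single_le_sum (fun c _ => hA c) hc

/-- the height of the normalised part, uniformly in all extensions -/
lemma height_partU (g : MvPolynomial (Fin N) K) {A : Finset (Fin N →₀ ℕ)} (hA : A.Nonempty)
    (m0 : Fin N →₀ ℕ) : ∃ (D : ℝ) (c : ℕ), 0 ≤ D ∧ ∀ (L : Type) [Field L] [NumberField L] [Algebra K L]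
      (H : ℝ) (x : Fin N → L), 1 ≤ H → (∀ i, mulHeight₁ (x i) ≤ H) →
      mulHeight₁ (aeval x (part g A) / mon x m0) ≤ Real.exp (Module.finrank ℚ L * D) * H ^ c := by
  obtain ⟨B, hB, hB2⟩ := coefs_unif (A.image fun m => coeff m g)
  have hcard : (1 : ℝ) ≤ A.card := by exact_mod_cast card_pos.2 hA
  refine ⟨Real.log A.card + A.card * B, ∑ m ∈ A, (∑ i, m i + ∑ i, m0 i),
    add_nonneg (Real.log_nonneg hcard) (by positivity), fun L _ _ _ H x hH hx => ?_⟩
  rw [aeval_part, sum_div]
  refine (mulHeight₁_sum_le hA _).trans ?_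
  have h1 : ∏ m ∈ A, mulHeight₁ (algebraMap K L (coeff m g) * mon x m / mon x m0) ≤
      Real.exp (Module.finrank ℚ L * (A.card * B)) * H ^ ∑ m ∈ A, (∑ i, m i + ∑ i, m0 i) := by
    have e1 : Real.exp (Module.finrank ℚ L * (A.card * B)) =
        ∏ _m ∈ A, Real.exp (Module.finrank ℚ L * B) := by
      rw [Finset.prod_const, ← Real.exp_nat_mul]
      congr 1
      ring
    rw [e1, ← prod_pow_eq_pow_sum, ← prod_mul_distrib]
    apply prod_le_prod
    · intro m _; exact mulHeight₁_nonneg _
    · intro m hm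
      rw [mul_div_assoc]
      exact (mulHeight₁_mul_le _ _).trans
        (mul_le_mul (hB2 L _ (mem_image_of_mem _ hm)) (height_ratio_mon hH hx m m0)
          (mulHeight₁_nonneg _) (Real.exp_nonneg _))
  have h2 : (A.card : ℝ) ^ totalWeight L = Real.exp (Module.finrank ℚ L * Real.log A.card) := by
    rw [NumberField.totalWeight_eq_finrank, Real.exp_nat_mul, Real.exp_log (by linarith)]
  calc (A.card : ℝ) ^ totalWeight L * ∏ m ∈ A, mulHeight₁ (algebraMap K L (coeff m g) * mon x m / mon x m0)
      ≤ (A.card : ℝ) ^ totalWeight L * (Real.exp (Module.finrank ℚ L * (A.card * B)) *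
        H ^ ∑ m ∈ A, (∑ i, m i + ∑ i, m0 i)) := mul_le_mul_of_nonneg_left h1 (by positivity)
    _ = _ := by rw [h2, mul_add, Real.exp_add]; ring

/-- the places at which one of finitely many fixed numbers is not a unit -/
lemma bad_unifU (s : Finset K) (hs : ∀ c ∈ s, c ≠ 0) : ∃ A : ℝ, 0 ≤ A ∧
    ∀ (L : Type) [Field L] [NumberField L] [Algebra K L], ∃ S0 : Finset (FinitePlace L),
      (∀ c ∈ s, ∀ v ∉ S0, v (algebraMap K L c) = 1) ∧
      ∏ v ∈ S0, NN v ≤ Real.exp (Module.finrank ℚ L * A) := by
  obtain ⟨B, hB, hB2⟩ := coefs_unif s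
  refine ⟨2 * s.card * B, by positivity, fun L _ _ _ => ?_⟩
  have hfin : ∀ c ∈ s, (Function.mulSupport fun v : FinitePlace L => v (algebraMap K L c)).Finite := by
    intro c hc
    apply FinitePlace.hasFiniteMulSupport
    rw [map_ne_zero]
    exact hs c hc
  choose! T hT using fun c (hc : c ∈ s) => (hfin c hc).exists_finset_coe
  refine ⟨s.biUnion T, fun c hc v hv => ?_, ?_⟩
  · by_contra hne
    apply hv
    rw [mem_biUnion]
    refine ⟨c, hc, ?_⟩
    rw [← mem_coe, hT c hc]
    exact hne
  · have hone : ∀ c ∈ s, ∏ v ∈ T c, NN v ≤ Real.exp (Module.finrank ℚ L * (2 * B)) := by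
      intro c hc
      have hc0 : algebraMap K L c ≠ 0 := by rw [map_ne_zero]; exact hs c hc
      set u := algebraMap K L c with hu
      have hsplit : T c ⊆ (T c).filter (fun v => v u < 1) ∪ (T c).filter (fun v => v u⁻¹ < 1) := by
        intro v hv
        rw [mem_union, mem_filter, mem_filter]
        have h1 : v u ≠ 1 := by
          rw [← mem_coe, hT c hc] at hv
          exact hv
        rcases lt_or_gt_of_ne h1 with h2 | h2
        · exact Or.inl ⟨hv, h2⟩
        · right
          refine ⟨hv, ?_⟩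
          rw [map_inv₀]
          exact inv_lt_one_of_one_lt₀ h2
      have key : ∀ w : L, w ≠ 0 → ∀ Z : Finset (FinitePlace L), (∀ v ∈ Z, v w < 1) →
          ∏ v ∈ Z, NN v ≤ mulHeight₁ w := by
        intro w hw Z hZ
        have h6 := Pool.Agent.H57R3.VJ.prod_le_height (inv_ne_zero hw) Z
        rw [mulHeight₁_inv] at h6
        refine le_trans (prod_le_prod (fun v _ => (NN_pos v).le) fun v hv => ?_) h6
        have h7 := Pool.Agent.H57R3.VJ.gain v hw one_ne_zero (by rw [map_one]; exact hZ v hv)
        rw [map_one] at h7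
        have h8 : 0 < v w := FinitePlace.pos_iff.2 hw
        refine le_trans ?_ (le_max_left _ _)
        rw [map_inv₀, le_inv_comm₀ (NN_pos v) h8, ← one_div, le_div_iff₀ (NN_pos v), mul_comm]
        exact h7
      have k1 := key u hc0 ((T c).filter fun v => v u < 1) fun v hv => (mem_filter.1 hv).2
      have k2 := key u⁻¹ (inv_ne_zero hc0) ((T c).filter fun v => v u⁻¹ < 1)
        fun v hv => (mem_filter.1 hv).2
      rw [mulHeight₁_inv] at k2
      have k3 := hB2 L c hc
      calc ∏ v ∈ T c, NN v ≤ _ := prod_mono_NN hsplit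
        _ ≤ _ := prod_union_le _ _
        _ ≤ mulHeight₁ u * mulHeight₁ u := mul_le_mul k1 k2 (prod_nonneg fun v _ => (NN_pos v).le)
            (mulHeight₁_nonneg _)
        _ ≤ Real.exp (Module.finrank ℚ L * B) * Real.exp (Module.finrank ℚ L * B) :=
            mul_le_mul k3 k3 (mulHeight₁_nonneg _) (Real.exp_nonneg _)
        _ = _ := by rw [← Real.exp_add]; congr 1; ring
    have hun : ∀ t : Finset K, t ⊆ s → ∏ v ∈ t.biUnion T, NN v ≤
        Real.exp (Module.finrank ℚ L * (2 * t.card * B)) := by
      intro t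
      induction t using Finset.induction with
      | empty => intro _; simp
      | insert a t ha ih =>
        intro hsub
        rw [biUnion_insert, card_insert_of_notMem ha]
        refine (prod_union_le _ _).trans ?_
        refine (mul_le_mul (hone a (hsub (mem_insert_self _ _)))
          (ih fun y hy => hsub (mem_insert_of_mem hy)) (prod_nonneg fun v _ => (NN_pos v).le)
          (Real.exp_nonneg _)).trans (le_of_eq ?_)
        rw [← Real.exp_add]
        congr 1
        push_cast
        ring
    exact hun s (Finset.Subset.refl _)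

end Pool.Agent.H84.VU
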