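import Mathlib
import Pool.Agent.H84.VU.C

/-!
# The upper bound, uniformly in all extensions
-/

set_option autoImplicit false
set_option linter.unusedSectionVars false
set_option linter.unusedVariables false

open MvPolynomial NumberField Height Finset
open scoped Classical

namespace Pool.Agent.H84.VU

open Pool.Agent.H57R3.VJ Pool.Agent.H84.VA

lemma two_pow_unif {δ : ℝ} (hδ : 0 < δ) : ∃ A : ℝ, 0 ≤ A ∧ ∀ (L : Type) [Field L] [NumberField L],
    ∀ w : L, w ≠ 0 → ∀ Z : Finset (FinitePlace L), (∀ v ∈ Z, v w < 1) →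
      (2 : ℝ) ^ Z.card ≤ Real.exp (Module.finrank ℚ L * A) * mulHeight₁ w ^ δ := by
  obtain ⟨A, hA, h⟩ := Pool.Agent.R366.UC.prod_unif hδ
  refine ⟨A, hA, fun L _ _ w hw Z hZ => ?_⟩
  have h1 : (2 : ℝ) ^ Z.card ≤ ∏ v ∈ Z, (2 * (1 - NN v ^ (-δ))⁻¹) := by
    rw [← Finset.prod_const]
    apply prod_le_prod (fun _ _ => by norm_num)
    intro v _
    have h2 : NN v ^ (-δ) < 1 :=
      Real.rpow_lt_one_of_one_lt_of_neg (by linarith [two_le_NN v]) (by linarith)
    have h3 : 0 < NN v ^ (-δ) := Real.rpow_pos_of_pos (NN_pos v) _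
    have h4 : 1 ≤ (1 - NN v ^ (-δ))⁻¹ := (one_le_inv₀ (by linarith)).2 (by linarith)
    linarith
  have h5 : ∏ v ∈ Z, NN v ≤ mulHeight₁ w := by
    have h6 := prod_le_height (inv_ne_zero hw) Z
    rw [mulHeight₁_inv] at h6
    refine le_trans (prod_le_prod (fun v _ => (NN_pos v).le) fun v hv => ?_) h6
    have h7 := gain v hw one_ne_zero (by rw [map_one]; exact hZ v hv)
    rw [map_one] at h7
    have h8 : 0 < v w := FinitePlace.pos_iff.2 hw
    refine le_trans ?_ (le_max_left _ _)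
    rw [map_inv₀, le_inv_comm₀ (NN_pos v) h8, ← one_div, le_div_iff₀ (NN_pos v), mul_comm]
    exact h7
  refine h1.trans ((h L Z).trans (mul_le_mul_of_nonneg_left ?_ (Real.exp_nonneg _)))
  rw [Real.finsetProd_rpow _ _ fun v _ => (NN_pos v).le]
  exact Real.rpow_le_rpow (prod_nonneg fun v _ => (NN_pos v).le) h5 hδ.le

variable {K : Type} [Field K] [NumberField K] {N : ℕ}

theorem count_typeU (g : MvPolynomial (Fin N) K) (A : Finset (Fin N →₀ ℕ)) {m0 : Fin N →₀ ℕ}
    (hm0 : m0 ∈ A) {κ ε W : ℝ} (hκ : 0 ≤ κ) (hκ1 : κ ≤ 1) (hε : 0 < ε) (hW : 0 ≤ W) :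
    ∃ M : ℝ, 0 ≤ M ∧ ∀ (L : Type) [Field L] [NumberField L] [Algebra K L]
      (S1 : Finset (FinitePlace L)), ∏ v ∈ S1, NN v ≤ Real.exp (Module.finrank ℚ L * W) →
      ∀ X H : ℝ, 1 ≤ X → 1 ≤ H → ∀ (PP : Finset (Fin N → L))
      (P : (Fin N → L) → Finset (FinitePlace L)),
      (∀ x ∈ PP, (∀ i, x i ≠ 0) ∧ (∀ i, mulHeight₁ (x i) ≤ H) ∧ aeval x (part g A) ≠ 0 ∧
        P x ⊆ bad S1 x ∧
        (∀ v ∈ P x, v (aeval x (part g A) / mon x m0) < 1 ∧ ∀ m ∈ A, v (mon x m / mon x m0) = 1) ∧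
        ∏ v ∈ bad S1 x, NN v ≤ X ∧ ∏ v ∈ bad S1 x \ P x, NN v ≤ X ^ κ) →
      (PP.card : ℝ) ≤ Real.exp (Module.finrank ℚ L * M) * X ^ (κ + ε) * H ^ ε := by
  obtain ⟨D, c, hD, hDc⟩ := height_partU g ⟨m0, hm0⟩ m0
  set e : ℕ := ∑ m ∈ A, (∑ i, m i + ∑ i, m0 i) with he
  set den : ℕ := e * A.card + A.card + c + N + 1 with hden
  have hden0 : (0 : ℝ) < den := by positivity
  set δ : ℝ := ε / den with hδd
  have hδ : 0 < δ := by positivity
  have hδe : δ * den = ε := div_mul_cancel₀ _ hden0.ne'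
  obtain ⟨A1, hA1, h1⟩ := Pool.Agent.R366.UC.supp_unif hδ
  obtain ⟨A2, hA2, h2⟩ := two_pow_unif hδ
  obtain ⟨A3, hA3, h3⟩ := Pool.Agent.R366.UC.sets_unif hδ
  refine ⟨A3 + (A1 + W * δ) * A.card + (A2 + D * δ) + (A1 + W * δ) * N, by positivity,
    fun L _ _ _ S1 hS1 X H hX hH PP P hPP => ?_⟩
  set n : ℝ := (Module.finrank ℚ L : ℝ) with hn
  have hn0 : 0 ≤ n := Nat.cast_nonneg _
  have hX0 : 0 < X := by linarith
  have hH0 : 0 < H := by linarith
  have hlX : 0 ≤ Real.log X := Real.log_nonneg hX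
  have hlH : 0 ≤ Real.log H := Real.log_nonneg hH
  have hmain := count_abs g A (m0 := m0) S1 (κ := κ) (δ := δ) (C1 := Real.exp (n * A1))
    (C2 := Real.exp (n * A2)) (C3 := Real.exp (n * A3 + (1 + δ) * (κ * Real.log X)))
    (D := Real.exp (n * D)) (w := (∏ v ∈ S1, NN v) ^ δ) (X := X) (H := H) (c := c) hδ
    (Real.exp_nonneg _) (Real.exp_nonneg _) (Real.exp_nonneg _) (Real.exp_pos _) hX hH
    (fun X hX Q U hU => h1 L X hX Q U hU) (fun w hw Z hZ => h2 L w hw Z hZ)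
    (by
      intro 𝒬 h𝒬
      apply h3 L
      intro Q hQ
      rw [← Real.log_prod fun v _ => (NN_pos v).ne', ← Real.log_rpow hX0]
      exact Real.log_le_log (prod_pos fun v _ => NN_pos v) (h𝒬 Q hQ))
    (fun x hx => hDc L H x hH hx) rfl PP P hPP
  rw [← he] at hmain
  refine hmain.trans ?_
  have hw : (∏ v ∈ S1, NN v) ^ δ ≤ Real.exp (n * W * δ) := by
    rw [Real.exp_mul]
    exact Real.rpow_le_rpow (prod_nonneg fun v _ => (NN_pos v).le) hS1 hδ.le
  have hw0 : 0 ≤ (∏ v ∈ S1, NN v) ^ δ :=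
    Real.rpow_nonneg (prod_nonneg fun v _ => (NN_pos v).le) _
  have eX : X ^ δ = Real.exp (Real.log X * δ) := Real.rpow_def_of_pos hX0 δ
  have eH : H ^ δ = Real.exp (Real.log H * δ) := Real.rpow_def_of_pos hH0 δ
  have eD : Real.exp (n * D) ^ δ = Real.exp (n * D * δ) := (Real.exp_mul _ _).symm
  have eX2 : X ^ (κ + ε) = Real.exp (Real.log X * (κ + ε)) := Real.rpow_def_of_pos hX0 _
  have eH2 : H ^ ε = Real.exp (Real.log H * ε) := Real.rpow_def_of_pos hH0 _
  rw [eX, eH, eD, eX2, eH2]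
  calc Real.exp (n * A3 + (1 + δ) * (κ * Real.log X)) *
        ((Real.exp (n * A1) * (∏ v ∈ S1, NN v) ^ δ *
          (Real.exp (Real.log X * δ) * Real.exp (Real.log H * δ) ^ e)) ^ A.card *
        ((Real.exp (n * A2) * Real.exp (n * D * δ) * Real.exp (Real.log H * δ) ^ c) *
        (Real.exp (n * A1) * (∏ v ∈ S1, NN v) ^ δ *
          (Real.exp (Real.log X * δ) * Real.exp (Real.log H * δ))) ^ N))
      ≤ Real.exp (n * A3 + (1 + δ) * (κ * Real.log X)) *
        ((Real.exp (n * A1) * Real.exp (n * W * δ) *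
          (Real.exp (Real.log X * δ) * Real.exp (Real.log H * δ) ^ e)) ^ A.card *
        ((Real.exp (n * A2) * Real.exp (n * D * δ) * Real.exp (Real.log H * δ) ^ c) *
        (Real.exp (n * A1) * Real.exp (n * W * δ) *
          (Real.exp (Real.log X * δ) * Real.exp (Real.log H * δ))) ^ N)) := by gcongr
    _ = Real.exp (n * (A3 + (A1 + W * δ) * A.card + (A2 + D * δ) + (A1 + W * δ) * N) +
          Real.log X * (κ + δ * (κ + A.card + N)) +
          Real.log H * (δ * (e * A.card + c + N))) := by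
        simp only [← Real.exp_nat_mul, ← Real.exp_add]
        congr 1
        ring
    _ ≤ Real.exp (n * (A3 + (A1 + W * δ) * A.card + (A2 + D * δ) + (A1 + W * δ) * N) +
          Real.log X * (κ + ε) + Real.log H * ε) := by
        apply Real.exp_le_exp.2
        have k1 : δ * (κ + A.card + N) ≤ ε := by
          rw [← hδe]
          apply mul_le_mul_of_nonneg_left _ hδ.le
          rw [hden]
          push_cast
          have : (0 : ℝ) ≤ (e : ℝ) * A.card := by positivity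
          have : (0 : ℝ) ≤ c := Nat.cast_nonneg _
          linarith
        have k2 : δ * (e * A.card + c + N) ≤ ε := by
          rw [← hδe]
          apply mul_le_mul_of_nonneg_left _ hδ.le
          rw [hden]
          push_cast
          have : (0 : ℝ) ≤ A.card := Nat.cast_nonneg _
          linarith
        have k3 := mul_le_mul_of_nonneg_left k1 hlX
        have k4 := mul_le_mul_of_nonneg_left k2 hlH
        rw [mul_add (Real.log X) κ, mul_add (Real.log X) κ]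
        linarith
    _ = _ := by rw [Real.exp_add, Real.exp_add]

theorem upperU (I : Ideal (MvPolynomial (Fin N) K)) (hp : I.IsPrime) (hI : NotGraded I) :
    ∃ ν : ℝ, 0 < ν ∧ ν < 1 ∧ ∃ f : MvPolynomial (Fin N) K, f ∉ I ∧ ∀ ε : ℝ, 0 < ε →
      ∃ M : ℝ, 0 ≤ M ∧ ∀ (L : Type) [Field L] [NumberField L] [Algebra K L],
        ∀ X H : ℝ, 1 ≤ X → 1 ≤ H → ∀ PP : Finset (Fin N → L),
          (∀ x ∈ PP, (∀ i, x i ≠ 0) ∧ (∀ g ∈ I, aeval x g = 0) ∧ aeval x f ≠ 0 ∧
            (∀ i, mulHeight₁ (x i) ≤ H) ∧ N1 ∅ x ≤ Real.log X) →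
          (PP.card : ℝ) ≤ Real.exp (Module.finrank ℚ L * M) * X ^ (1 - ν) * H ^ ε := by
  obtain ⟨T, hT1, hT2⟩ := cover I hI
  have hf : ∏ τ ∈ T, part τ.1 τ.2 ∉ I := by
    rw [hp.prod_mem_iff]
    push Not
    exact fun τ hτ => (hT1 τ hτ).2
  refine ⟨1 / (2 * (T.card + 1)), by positivity, ?_, ∏ τ ∈ T, part τ.1 τ.2, hf, ?_⟩
  · rw [div_lt_one (by positivity)]
    have : (0 : ℝ) ≤ T.card := Nat.cast_nonneg _
    linarith
  intro ε hε
  have hν1 : (1 : ℝ) / (2 * (T.card + 1)) ≤ 1 := by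
    rw [div_le_one (by positivity)]
    have : (0 : ℝ) ≤ T.card := Nat.cast_nonneg _
    linarith
  rcases T.eq_empty_or_nonempty with hT0 | hTne
  · -- dimension zero
    have hN : N = 0 := by
      by_contra hN
      obtain ⟨τ, hτ, _⟩ := hT2 (fun _ => 1) (by
        intro h
        have := congrFun h ⟨0, Nat.pos_of_ne_zero hN⟩
        simp at this)
      rw [hT0] at hτ
      exact absurd hτ (notMem_empty τ)
    subst hN
    refine ⟨0, le_rfl, fun L _ _ _ X H hX hH PP _ => ?_⟩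
    have h1 : (PP.card : ℝ) ≤ 1 := by exact_mod_cast card_le_one_of_subsingleton PP
    have h2 : 1 ≤ X ^ (1 - 1 / (2 * ((T.card : ℝ) + 1))) := Real.one_le_rpow hX (by linarith)
    have h3 : 1 ≤ H ^ ε := Real.one_le_rpow hH hε.le
    rw [mul_zero, Real.exp_zero]
    nlinarith
  have ht : 0 < T.card := card_pos.2 hTne
  have ht' : (0 : ℝ) < T.card := by exact_mod_cast ht
  have ht1 : (1 : ℝ) ≤ T.card := by exact_mod_cast ht
  -- the bad places of the coefficients
  obtain ⟨W, hW, hbad⟩ := bad_unifU (T.biUnion fun τ => τ.1.support.image fun m => coeff m τ.1) (by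
    intro c hc
    obtain ⟨τ, _, hc⟩ := mem_biUnion.1 hc
    obtain ⟨m, hm, rfl⟩ := mem_image.1 hc
    exact mem_support_iff.1 hm)
  have hA : ∀ τ ∈ T, τ.2.Nonempty := by
    intro τ hτ
    rw [nonempty_iff_ne_empty]
    intro h0
    apply (hT1 τ hτ).2
    rw [h0]
    simp [part]
  choose! m0 hm0 using hA
  choose! ty hty using hT2
  set κ : ℝ := 1 - 1 / T.card with hκ
  have hκ0 : 0 ≤ κ := by
    rw [hκ, sub_nonneg, div_le_one ht']
    exact ht1
  have hκ1 : κ ≤ 1 := by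
    rw [hκ]
    have : 0 ≤ 1 / (T.card : ℝ) := by positivity
    linarith
  set ε' : ℝ := min ε (1 / (2 * T.card * (T.card + 1))) with hε'
  have hε'0 : 0 < ε' := lt_min hε (by positivity)
  have hcount : ∀ τ : MvPolynomial (Fin N) K × Finset (Fin N →₀ ℕ), ∃ M : ℝ, 0 ≤ M ∧ (τ ∈ T →
      ∀ (L : Type) [Field L] [NumberField L] [Algebra K L]
      (S1 : Finset (FinitePlace L)), ∏ v ∈ S1, NN v ≤ Real.exp (Module.finrank ℚ L * W) →
      ∀ X H : ℝ, 1 ≤ X → 1 ≤ H → ∀ (PP : Finset (Fin N → L))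
      (P : (Fin N → L) → Finset (FinitePlace L)),
      (∀ x ∈ PP, (∀ i, x i ≠ 0) ∧ (∀ i, mulHeight₁ (x i) ≤ H) ∧ aeval x (part τ.1 τ.2) ≠ 0 ∧
        P x ⊆ bad S1 x ∧
        (∀ v ∈ P x, v (aeval x (part τ.1 τ.2) / mon x (m0 τ)) < 1 ∧
          ∀ m ∈ τ.2, v (mon x m / mon x (m0 τ)) = 1) ∧
        ∏ v ∈ bad S1 x, NN v ≤ X ∧ ∏ v ∈ bad S1 x \ P x, NN v ≤ X ^ κ) →
      (PP.card : ℝ) ≤ Real.exp (Module.finrank ℚ L * M) * X ^ (κ + ε') * H ^ ε') := by
    intro τ
    by_cases hτ : τ ∈ T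
    · obtain ⟨M, hM, h⟩ := count_typeU τ.1 τ.2 (hm0 τ hτ) hκ0 hκ1 hε'0 hW
      exact ⟨M, hM, fun _ => h⟩
    · exact ⟨0, le_rfl, fun h => absurd h hτ⟩
  choose M hM0 hM using hcount
  refine ⟨Real.log T.card + ∑ τ ∈ T, M τ, add_nonneg (Real.log_nonneg ht1)
    (sum_nonneg fun τ _ => hM0 τ), fun L _ _ _ X H hX hH PP hPP => ?_⟩
  obtain ⟨S1, hcoef', hS1⟩ := hbad L
  have hcoef : ∀ τ ∈ T, ∀ m ∈ τ.1.support, ∀ v ∉ S1, v (algebraMap K L (coeff m τ.1)) = 1 :=
    fun τ hτ m hm v hv => hcoef' _ (mem_biUnion.2 ⟨τ, hτ, mem_image_of_mem _ hm⟩) v hv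
  have hX0 : 0 < X := by linarith
  have hH0 : 0 < H := by linarith
  have hlogX : 0 ≤ Real.log X := Real.log_nonneg hX
  -- the type with the most places
  have hpig : ∀ x ∈ PP, ∃ τ ∈ T,
      ∑ v ∈ bad S1 x \ (bad S1 x).filter (fun v => ty (wv v x) = τ), Real.log (NN v) ≤
        κ * Real.log X := by
    intro x hx
    obtain ⟨g1, g2, g3, g4, g5⟩ := hPP x hx
    set tot := ∑ v ∈ bad S1 x, Real.log (NN v) with htot
    have htotX : tot ≤ Real.log X := by
      refine le_trans ?_ g5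
      rw [N1_eq ∅ g1, htot]
      exact sum_le_sum_of_subset_of_nonneg (bad_sub (empty_subset _) g1) fun v _ _ => log_nonneg' v
    have hmaps : ∀ v ∈ bad S1 x, ty (wv v x) ∈ T := fun v hv =>
      (hty _ (wv_ne g1 ((mem_bad g1 v).1 hv).2)).1
    have hsum : ∑ τ ∈ T, ∑ v ∈ (bad S1 x).filter (fun v => ty (wv v x) = τ), Real.log (NN v) = tot :=
      sum_fiberwise_of_maps_to hmaps _
    obtain ⟨τ, hτ, hle⟩ := exists_le_of_sum_le (s := T) (f := fun _ => tot / T.card)
      (g := fun τ => ∑ v ∈ (bad S1 x).filter (fun v => ty (wv v x) = τ), Real.log (NN v)) hTne (by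
        rw [hsum, sum_const, nsmul_eq_mul, mul_div_cancel₀ _ ht'.ne'])
    refine ⟨τ, hτ, ?_⟩
    have h1 := Finset.sum_sdiff (s₁ := (bad S1 x).filter (fun v => ty (wv v x) = τ))
      (s₂ := bad S1 x) (f := fun v => Real.log (NN v)) (filter_subset _ _)
    have h2 : tot - tot / T.card = κ * tot := by rw [hκ]; ring
    have h3 : κ * tot ≤ κ * Real.log X := mul_le_mul_of_nonneg_left htotX hκ0
    linarith
  choose! τx hτx1 hτx2 using hpig
  have hcard : ∀ τ ∈ T, ((PP.filter fun x => τx x = τ).card : ℝ) ≤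
      Real.exp (Module.finrank ℚ L * M τ) * X ^ (κ + ε') * H ^ ε' := by
    intro τ hτ
    apply hM τ hτ L S1 hS1 X H hX hH _ fun x => (bad S1 x).filter fun v => ty (wv v x) = τ
    intro x hx
    obtain ⟨hx1, hx2⟩ := mem_filter.1 hx
    obtain ⟨g1, g2, g3, g4, g5⟩ := hPP x hx1
    refine ⟨g1, g4, ?_, filter_subset _ _, ?_, ?_, ?_⟩
    · intro h0
      apply g3
      rw [map_prod]
      exact prod_eq_zero hτ h0
    · intro v hv
      obtain ⟨hv1, hv2⟩ := mem_filter.1 hv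
      have hcov := (hty _ (wv_ne g1 ((mem_bad g1 v).1 hv1).2)).2
      rw [hv2] at hcov
      have := place g1 (g2 _ (hT1 τ hτ).1)
        (fun m hm => hcoef τ hτ m hm v ((mem_bad g1 v).1 hv1).1) hcov (hm0 τ hτ)
      exact ⟨this.2, this.1⟩
    · have := prodNN_le (Q := bad S1 x) (κ := 1) hX0 (by
        rw [one_mul]
        refine le_trans ?_ g5
        rw [N1_eq ∅ g1]
        exact sum_le_sum_of_subset_of_nonneg (bad_sub (empty_subset _) g1) fun v _ _ => log_nonneg' v)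
      rwa [Real.rpow_one] at this
    · have := hτx2 x hx1
      rw [hx2] at this
      exact prodNN_le hX0 this
  have hexp : κ + ε' ≤ 1 - 1 / (2 * (T.card + 1)) := by
    have h1 : ε' ≤ 1 / (2 * T.card * (T.card + 1)) := min_le_right _ _
    have h2 : (1 : ℝ) / (2 * T.card * (T.card + 1)) + 1 / (2 * (T.card + 1)) = 1 / (2 * T.card) := by
      field_simp
      ring
    have h3 : (1 : ℝ) / (2 * T.card) ≤ 1 / T.card := by
      apply one_div_le_one_div_of_le ht'
      linarith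
    rw [hκ]
    linarith
  have hn1 : (1 : ℝ) ≤ Module.finrank ℚ L := by
    exact_mod_cast (Module.finrank_pos : 0 < Module.finrank ℚ L)
  have hsum : ∑ τ ∈ T, Real.exp (Module.finrank ℚ L * M τ) ≤
      Real.exp (Module.finrank ℚ L * (Real.log T.card + ∑ τ ∈ T, M τ)) := by
    calc ∑ τ ∈ T, Real.exp (Module.finrank ℚ L * M τ)
        ≤ ∑ _τ ∈ T, Real.exp (Module.finrank ℚ L * ∑ τ ∈ T, M τ) := by
          apply sum_le_sum
          intro τ hτ
          apply Real.exp_le_exp.2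
          exact mul_le_mul_of_nonneg_left (single_le_sum (fun τ _ => hM0 τ) hτ) (by linarith)
      _ = T.card * Real.exp (Module.finrank ℚ L * ∑ τ ∈ T, M τ) := by rw [sum_const, nsmul_eq_mul]
      _ ≤ Real.exp (Module.finrank ℚ L * Real.log T.card) *
          Real.exp (Module.finrank ℚ L * ∑ τ ∈ T, M τ) := by
          apply mul_le_mul_of_nonneg_right _ (Real.exp_nonneg _)
          conv_lhs => rw [← Real.exp_log ht']
          apply Real.exp_le_exp.2
          have := Real.log_nonneg ht1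
          nlinarith
      _ = _ := by rw [← Real.exp_add, mul_add]
  calc (PP.card : ℝ) ≤ ∑ τ ∈ T, ((PP.filter fun x => τx x = τ).card : ℝ) := by
        rw [card_eq_sum_card_fiberwise (f := τx) (t := T) fun x hx => hτx1 x hx]
        push_cast
        exact le_rfl
    _ ≤ ∑ τ ∈ T, Real.exp (Module.finrank ℚ L * M τ) * X ^ (κ + ε') * H ^ ε' := sum_le_sum hcard
    _ = (∑ τ ∈ T, Real.exp (Module.finrank ℚ L * M τ)) * X ^ (κ + ε') * H ^ ε' := by
        rw [sum_mul, sum_mul]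
    _ ≤ Real.exp (Module.finrank ℚ L * (Real.log T.card + ∑ τ ∈ T, M τ)) *
          X ^ (1 - 1 / (2 * ((T.card : ℝ) + 1))) * H ^ ε := by
        apply mul_le_mul _ _ (by positivity) (by positivity)
        · exact mul_le_mul hsum (Real.rpow_le_rpow_of_exponent_le hX hexp) (by positivity)
            (Real.exp_nonneg _)
        · exact Real.rpow_le_rpow_of_exponent_le hH (min_le_left _ _)

end Pool.Agent.H84.VU
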