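import Mathlib
import Pool.Agent.H84.VU.D
import Pool.Graph.R_seed8.TH905.VF.Prox

/-!
# Algebraic points above the points of a subvariety of a torus, over all number fields
-/

set_option autoImplicit false
set_option linter.unusedSectionVars false

namespace Pool.Agent.H84.VU

open NumberField IsDedekindDomain Height Finset
open scoped Classical
open Pool.Agent.H57R3.VJ (NN NN_pos two_le_NN fin_of_bdd)
open Pool.Agent.H84.VA (bad mem_bad N1 N1_eq NotGraded bad_fin log_nonneg')
open Pool.Agent.TH905.VF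
open Pool.Agent.H691R3 (fv)

/-- homogeneous coordinates of a point of the torus -/
def hom {F : Type*} [Field F] {N : ℕ} (x : Fin N → F) : Fin (N + 1) → F := Fin.cons 1 x

lemma hom_ne {F : Type*} [Field F] {N : ℕ} {x : Fin N → F} (hx : ∀ i, x i ≠ 0) (i : Fin (N + 1)) :
    hom x i ≠ 0 := by
  refine Fin.cases ?_ (fun j => ?_) i
  · simp [hom]
  · simpa [hom] using hx j

/-- the truncated counting function of the boundary of the torus at a point over `F`, relative to `k` -/
noncomputable def trunc (k : Type) {F : Type} [Field k] [NumberField k] [Field F] [NumberField F]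
    [Algebra k F] {N : ℕ} (S : Finset (HeightOneSpectrum (𝓞 k))) (P : Fin N → F) : ℝ :=
  (∑ᶠ w : FinitePlace F, if (∀ v ∈ S, ¬ w.maximalIdeal.asIdeal.LiesOver v.asIdeal) ∧ ∃ i, w (P i) ≠ 1 then
    Real.log (Ideal.absNorm w.maximalIdeal.asIdeal : ℝ) else 0) / Module.finrank k F

lemma trunc_eq {k F : Type} [Field k] [NumberField k] [Field F] [NumberField F]
    [Algebra k F] {N : ℕ} (S : Finset (HeightOneSpectrum (𝓞 k))) {P : Fin N → F} (hP : ∀ i, P i ≠ 0) :
    trunc k S P = (∑ w ∈ (bad ∅ P).filter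
      (fun w => ∀ v ∈ S, ¬ w.maximalIdeal.asIdeal.LiesOver v.asIdeal), Real.log (NN w)) /
        Module.finrank k F := by
  unfold trunc
  congr 1
  rw [finsum_eq_sum_of_support_subset _ (s := (bad ∅ P).filter
      (fun w => ∀ v ∈ S, ¬ w.maximalIdeal.asIdeal.LiesOver v.asIdeal)) (by
    intro v hv
    rw [Function.mem_support] at hv
    by_contra hne
    apply hv
    rw [if_neg]
    intro h
    exact hne (mem_coe.2 (mem_filter.2 ⟨(mem_bad hP v).2 ⟨notMem_empty _, h.2⟩, h.1⟩)))]
  apply sum_congr rfl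
  intro v hv
  obtain ⟨h1, h2⟩ := mem_filter.1 hv
  rw [if_pos ⟨h2, ((mem_bad hP v).1 h1).2⟩]
  rfl

lemma trunc_empty {k F : Type} [Field k] [NumberField k] [Field F] [NumberField F]
    [Algebra k F] {N : ℕ} {P : Fin N → F} (hP : ∀ i, P i ≠ 0) :
    trunc k ∅ P = N1 ∅ P / Module.finrank k F := by
  rw [trunc_eq ∅ hP, N1_eq ∅ hP]
  congr 2
  ext v
  simp

section tower

variable {k L F : Type} [Field k] [NumberField k] [Field L] [NumberField L] [Field F] [NumberField F]
  [Algebra k L] [Algebra L F] [Algebra k F] [IsScalarTower k L F] {N : ℕ}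

theorem key_tower (S : Finset (HeightOneSpectrum (𝓞 k))) {m : ℕ} (hm : m ≠ 0) (x : Fin N → L)
    (hx : ∀ i, x i ≠ 0) (P : Fin N → F) (h : ∀ i, P i ^ m = algebraMap L F (x i))
    (R : Finset (HeightOneSpectrum (𝓞 L)))
    (hR : ∀ v ∈ R, (∃ i, fv v (x i) ≠ 1) ∧ ∀ v0 ∈ S, ¬ v.asIdeal.LiesOver v0.asIdeal) :
    ∑ v ∈ R, Real.log (Ideal.absNorm v.asIdeal) + Real.log |(discr L : ℝ)| ≤
      Module.finrank k L * (Real.log |(discr k : ℝ)| + ld k F + trunc k S P) := by
  have hP : ∀ i, P i ≠ 0 := by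
    intro i h0
    have h3 := h i
    rw [h0, zero_pow hm] at h3
    exact hx i ((map_eq_zero _).1 h3.symm)
  obtain ⟨W, hW1, hW2⟩ := rel (k := L) (L := F) R
  have hLF : (0 : ℝ) < Module.finrank L F := by exact_mod_cast Module.finrank_pos
  have hkL : (0 : ℝ) < Module.finrank k L := by exact_mod_cast Module.finrank_pos
  have hkF : (Module.finrank k F : ℝ) = Module.finrank k L * Module.finrank L F := by
    exact_mod_cast (Module.finrank_mul_finrank k L F).symm
  set Z := (bad ∅ P).filter
      (fun w => ∀ v ∈ S, ¬ w.maximalIdeal.asIdeal.LiesOver v.asIdeal) with hZ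
  have hsub : W.image FinitePlace.mk ⊆ Z := by
    intro u hu
    obtain ⟨w, hw, rfl⟩ := mem_image.1 hu
    obtain ⟨v, hv, hvw⟩ := hW1 w hw
    obtain ⟨⟨i, hi⟩, hS⟩ := hR v hv
    rw [hZ, mem_filter, mem_bad hP]
    refine ⟨⟨notMem_empty _, i, ?_⟩, ?_⟩
    · intro hone
      have h1 : fv w (P i) = 1 := hone
      have h2 : fv w (algebraMap L F (x i)) = 1 := by rw [← h i, map_pow, h1, one_pow]
      rcases lt_or_gt_of_ne hi with h3 | h3
      · have h4 : fv v (x i) < fv v 1 := by rwa [map_one]
        have h5 := (fv_lt_ext v w hvw (x i) 1).2 h4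
        rw [h2, map_one, map_one] at h5
        exact lt_irrefl _ h5
      · have h4 : fv v 1 < fv v (x i) := by rwa [map_one]
        have h5 := (fv_lt_ext v w hvw 1 (x i)).2 h4
        rw [h2, map_one, map_one] at h5
        exact lt_irrefl _ h5
    · intro v0 hv0 hover
      rw [FinitePlace.maximalIdeal_mk] at hover
      apply hS v0 hv0
      have := hvw
      exact Ideal.LiesOver.tower_bot w.asIdeal v.asIdeal v0.asIdeal
  have hsum : ∑ w ∈ W, Real.log (Ideal.absNorm w.asIdeal) ≤ ∑ w ∈ Z, Real.log (NN w) := by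
    calc ∑ w ∈ W, Real.log (Ideal.absNorm w.asIdeal)
        = ∑ w ∈ W.image FinitePlace.mk, Real.log (NN w) := by
          rw [Finset.sum_image]
          · apply sum_congr rfl
            intro w _
            show _ = Real.log (Ideal.absNorm (FinitePlace.mk w).maximalIdeal.asIdeal)
            rw [FinitePlace.maximalIdeal_mk]
          · intro a _ b _ hab
            rw [← FinitePlace.maximalIdeal_mk a, ← FinitePlace.maximalIdeal_mk b]
            exact congrArg _ hab
      _ ≤ _ := sum_le_sum_of_subset_of_nonneg hsub fun v _ _ => log_nonneg' v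
  rw [trunc_eq S hP, ← hZ]
  unfold ld
  rw [hkF]
  have e : (Module.finrank k L : ℝ) * (Real.log |(discr k : ℝ)| +
      (Real.log |(discr F : ℝ)| / (Module.finrank k L * Module.finrank L F) - Real.log |(discr k : ℝ)|) +
      (∑ w ∈ Z, Real.log (NN w)) / (Module.finrank k L * Module.finrank L F)) =
      (Real.log |(discr F : ℝ)| + ∑ w ∈ Z, Real.log (NN w)) / Module.finrank L F := by
    field_simp
    ring
  rw [e, le_div_iff₀ hLF]
  linarith

lemma ht_tower {m : ℕ} (x : Fin N → L) (P : Fin N → F)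
    (h : ∀ i, P i ^ m = algebraMap L F (x i)) :
    (Module.finrank k L : ℝ) * (m * ht k (hom P)) = logHeight (hom x) := by
  have hLF : (0 : ℝ) < Module.finrank L F := by exact_mod_cast Module.finrank_pos
  have hkL : (0 : ℝ) < Module.finrank k L := by exact_mod_cast Module.finrank_pos
  have hkF : (Module.finrank k F : ℝ) = Module.finrank k L * Module.finrank L F := by
    exact_mod_cast (Module.finrank_mul_finrank k L F).symm
  have h1 := ht_pow (k := L) (L := F) m (hom x) (hom P) 1 one_ne_zero (by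
      intro i
      refine Fin.cases ?_ (fun j => ?_) i
      · simp [hom]
      · simpa [hom] using h j)
  unfold ht at h1 ⊢
  rw [hkF, ← h1]
  field_simp

end tower

/-- For each finite set `S` of primes the part of the truncated counting function above `S` is
bounded in all extensions. -/
lemma over_bound {k : Type} [Field k] [NumberField k] (S : Finset (HeightOneSpectrum (𝓞 k))) :
    ∃ A : ℝ, 0 ≤ A ∧ ∀ (L : Type) [Field L] [NumberField L] [Algebra k L],
      ∃ S0 : Finset (FinitePlace L), ∑ v ∈ S0, Real.log (NN v) ≤ Module.finrank ℚ L * A ∧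
        ∀ v ∉ S0, ∀ v0 ∈ S, ¬ v.maximalIdeal.asIdeal.LiesOver v0.asIdeal := by
  have hc : ∀ v0 : HeightOneSpectrum (𝓞 k), ∃ c : 𝓞 k, c ∈ v0.asIdeal ∧ c ≠ 0 := fun v0 =>
    Submodule.exists_mem_ne_zero_of_ne_bot v0.ne_bot
  choose c hc1 hc2 using hc
  obtain ⟨A, hA, h⟩ := bad_unifU (S.image fun v0 => (c v0 : k)) (by
    intro a ha
    obtain ⟨v0, _, rfl⟩ := mem_image.1 ha
    simpa using hc2 v0)
  refine ⟨A, hA, fun L _ _ _ => ?_⟩
  obtain ⟨S0, h1, h2⟩ := h L
  refine ⟨S0, ?_, fun v hv v0 hv0 hover => ?_⟩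
  · rw [← Real.log_prod fun v _ => (NN_pos v).ne']
    calc Real.log (∏ v ∈ S0, NN v) ≤ Real.log (Real.exp (Module.finrank ℚ L * A)) :=
          Real.log_le_log (prod_pos fun v _ => NN_pos v) h2
      _ = _ := Real.log_exp _
  · have h3 := h1 _ (mem_image_of_mem _ hv0) v hv
    have h4 : fv v0 (c v0 : k) < fv v0 (1 : k) := by
      rw [fv_lt_iff, map_one]
      exact (HeightOneSpectrum.valuation_lt_one_iff_mem v0 (c v0)).2 (hc1 v0)
    have h5 := (fv_lt_ext v0 v.maximalIdeal hover (c v0 : k) 1).2 h4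
    rw [map_one, map_one, fv_max, h3] at h5
    exact lt_irrefl _ h5

end Pool.Agent.H84.VU
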