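import Mathlib
import Pool.Agent.H84.VU.G

/-!
# Algebraic points above the points of a subvariety of a torus, over all number fields: the bound
-/

set_option autoImplicit false
set_option linter.unusedSectionVars false

namespace Pool.Agent.H84.VU

open NumberField IsDedekindDomain Height Finset MvPolynomial
open scoped Classical
open Pool.Agent.H57R3.VJ (NN NN_pos two_le_NN fin_of_bdd)
open Pool.Agent.H84.VA (bad mem_bad N1 N1_eq NotGraded bad_fin log_nonneg')
open Pool.Agent.TH905.VF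
open Pool.Agent.H691R3 (fv)

variable {k : Type} [Field k] [NumberField k] {N : ℕ}

/-- some algebraic point above `x` violates the inequality -/
def Viol (S : Finset (HeightOneSpectrum (𝓞 k))) (θ c : ℝ) {L : Type} [Field L] [NumberField L]
    [Algebra k L] (x : Fin N → L) : Prop :=
  ∃ (m : ℕ) (F : Type) (_ : Field F) (_ : NumberField F) (_ : Algebra k F) (_ : Algebra L F)
    (_ : IsScalarTower k L F) (P : Fin N → F), m ≠ 0 ∧ (∀ i, P i ^ m = algebraMap L F (x i)) ∧
    ld k F + trunc k S P + c < θ * (m * ht k (hom P))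

/-- the exceptional points -/
def Exc (I : Ideal (MvPolynomial (Fin N) k)) (f : MvPolynomial (Fin N) k)
    (S : Finset (HeightOneSpectrum (𝓞 k))) (θ c : ℝ) (L : Type) [Field L] [NumberField L]
    [Algebra k L] (B : ℝ) : Set (Fin N → L) :=
  {x | (∀ i, x i ≠ 0) ∧ (∀ g ∈ I, aeval x g = 0) ∧ aeval x f ≠ 0 ∧
    logHeight (hom x) ≤ Module.finrank k L * Real.log B ∧ Viol S θ c x}

lemma N1_le_of_viol {S : Finset (HeightOneSpectrum (𝓞 k))} {A : ℝ} {L : Type} [Field L]
    [NumberField L] [Algebra k L] {S0 : Finset (FinitePlace L)}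
    (h1 : ∑ v ∈ S0, Real.log (NN v) ≤ Module.finrank ℚ L * A)
    (h2 : ∀ v ∉ S0, ∀ v0 ∈ S, ¬ v.maximalIdeal.asIdeal.LiesOver v0.asIdeal)
    {θ c B : ℝ} (hθ : 0 ≤ θ) {x : Fin N → L} (hx : ∀ i, x i ≠ 0)
    (hB : logHeight (hom x) ≤ Module.finrank k L * Real.log B) (hv : Viol S θ c x) :
    N1 ∅ x ≤ Module.finrank k L * (Real.log |(discr k : ℝ)| + θ * Real.log B - c) -
      Real.log |(discr L : ℝ)| + Module.finrank ℚ L * A := by
  obtain ⟨m, F, _, _, _, _, _, P, hm, hP, hlt⟩ := hv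
  have hkL : (0 : ℝ) < Module.finrank k L := by exact_mod_cast Module.finrank_pos
  have hk := key_tower (k := k) S hm x hx P hP ((bad ∅ x \ S0).image FinitePlace.maximalIdeal) (by
    intro w hw
    obtain ⟨v, hv, rfl⟩ := mem_image.1 hw
    obtain ⟨hv1, hv2⟩ := Finset.mem_sdiff.1 hv
    refine ⟨?_, h2 v hv2⟩
    obtain ⟨i, hi⟩ := ((mem_bad hx v).1 hv1).2
    exact ⟨i, by rw [fv_max]; exact hi⟩)
  rw [Finset.sum_image (by
    intro v _ w _ h
    exact FinitePlace.maximalIdeal_injective h)] at hk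
  have h3 : N1 ∅ x ≤ ∑ v ∈ bad ∅ x \ S0, Real.log (NN v) + ∑ v ∈ S0, Real.log (NN v) := by
    rw [N1_eq ∅ hx]
    calc ∑ v ∈ bad ∅ x, Real.log (NN v) ≤ ∑ v ∈ (bad ∅ x \ S0) ∪ S0, Real.log (NN v) := by
          apply sum_le_sum_of_subset_of_nonneg
          · rw [sdiff_union_self_eq_union]
            exact subset_union_left
          · exact fun v _ _ => log_nonneg' v
      _ = _ := sum_union sdiff_disjoint
  have h4 : ∑ v ∈ bad ∅ x \ S0, Real.log (NN v) =
      ∑ v ∈ bad ∅ x \ S0, Real.log (Ideal.absNorm v.maximalIdeal.asIdeal) := rfl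
  have h5 := ht_tower (k := k) x P hP
  have h6 : (m : ℝ) * ht k (hom P) ≤ Real.log B := by
    have : (Module.finrank k L : ℝ) * (m * ht k (hom P)) ≤ Module.finrank k L * Real.log B := by
      rw [h5]; exact hB
    exact le_of_mul_le_mul_left this hkL
  have h7 : Real.log |(discr k : ℝ)| + ld k F + trunc k S P ≤
      Real.log |(discr k : ℝ)| + θ * Real.log B - c := by
    have := mul_le_mul_of_nonneg_left h6 hθ
    linarith
  have h8 := mul_le_mul_of_nonneg_left h7 hkL.le
  rw [h4] at h3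
  linarith

theorem main (I : Ideal (MvPolynomial (Fin N) k)) (hp : I.IsPrime) (hI : NotGraded I) :
    ∃ ν : ℝ, 0 < ν ∧ ν < 1 ∧ ∃ f : MvPolynomial (Fin N) k, f ∉ I ∧
      ∀ (S : Finset (HeightOneSpectrum (𝓞 k))) (θ c ε : ℝ), 0 ≤ θ → 0 < ε → ∃ M : ℝ, 0 < M ∧
        ∀ (L : Type) [Field L] [NumberField L] [Algebra k L], ∀ B : ℝ, 1 ≤ B →
          (Exc I f S θ c L B).Finite ∧ ((Exc I f S θ c L B).ncard : ℝ) ≤
            (M * B ^ (θ * (1 - ν) + ε)) ^ Module.finrank k L / |(discr L : ℝ)| ^ (1 - ν) := by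
  obtain ⟨ν, hν, hν1, f, hf, h⟩ := upperU I hp hI
  refine ⟨ν, hν, hν1, f, hf, fun S θ c ε hθ hε => ?_⟩
  obtain ⟨M1, hM1, h1⟩ := h ε hε
  obtain ⟨A, hA, h2⟩ := over_bound S
  set c' : ℝ := Real.log |(discr k : ℝ)| - c + Module.finrank ℚ k * A with hc'
  refine ⟨Real.exp (Module.finrank ℚ k * M1 + (1 - ν) * c'), Real.exp_pos _,
    fun L _ _ _ B hB => fin_of_bdd _ _ fun T hT => ?_⟩
  obtain ⟨S0, hS1, hS2⟩ := h2 L
  have hB0 : 0 < B := by linarith
  have hlB : 0 ≤ Real.log B := Real.log_nonneg hB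
  have hn : (Module.finrank ℚ L : ℝ) = Module.finrank ℚ k * Module.finrank k L := by
    exact_mod_cast (Module.finrank_mul_finrank ℚ k L).symm
  have hkL : (0 : ℝ) < Module.finrank k L := by exact_mod_cast Module.finrank_pos
  have hdL : 0 < |(discr L : ℝ)| := abs_pos.2 (by exact_mod_cast discr_ne_zero L)
  set Z : ℝ := Module.finrank k L * (θ * Real.log B + c') - Real.log |(discr L : ℝ)| with hZ
  have hN1 : ∀ x ∈ T, N1 ∅ x ≤ Z := by
    intro x hx
    obtain ⟨g1, g2, g3, g4, g5⟩ := hT hx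
    refine (N1_le_of_viol hS1 hS2 hθ g1 g4 g5).trans (le_of_eq ?_)
    rw [hZ, hc', hn]
    ring
  rcases T.eq_empty_or_nonempty with h0 | ⟨x0, hx0⟩
  · rw [h0, card_empty, Nat.cast_zero]
    positivity
  have hZ0 : 0 ≤ Z := by
    refine le_trans ?_ (hN1 x0 hx0)
    rw [N1_eq ∅ (hT hx0).1]
    exact sum_nonneg fun v _ => log_nonneg' v
  have hcard := h1 L (Real.exp Z) (Real.exp (Module.finrank k L * Real.log B))
    (Real.one_le_exp hZ0) (Real.one_le_exp (mul_nonneg hkL.le hlB)) T (by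
      intro x hx
      obtain ⟨g1, g2, g3, g4, g5⟩ := hT hx
      refine ⟨g1, g2, g3, fun i => ?_, ?_⟩
      · have e1 : mulHeight₁ (x i) ≤ mulHeight (hom x) := by
          rw [mulHeight₁_eq_mulHeight]
          have := mulHeight_comp_le ![i.succ, 0] (hom x)
          refine le_trans (le_of_eq ?_) this
          congr 1
          funext j
          fin_cases j <;> simp [hom]
        refine e1.trans ?_
        rw [← Real.exp_log (x := mulHeight (hom x)) (by
          exact mulHeight_pos _)]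
        apply Real.exp_le_exp.2
        rw [← logHeight_eq_log_mulHeight]
        exact g4
      · rw [Real.log_exp]
        exact hN1 x hx)
  refine hcard.trans (le_of_eq ?_)
  rw [← Real.exp_mul, ← Real.exp_mul, ← Real.exp_add, ← Real.exp_add, Real.rpow_def_of_pos hB0,
    Real.rpow_def_of_pos hdL, ← Real.exp_add, ← Real.exp_nat_mul, ← Real.exp_sub, hn, hZ]
  congr 1
  ring

end Pool.Agent.H84.VU
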