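import Mathlib
import Pool.Agent.H84.VU.H
import Pool.Agent.H84.VA.F

/-!
# The converse: no power saving for stable subvarieties
-/

set_option autoImplicit false
set_option linter.unusedSectionVars false

namespace Pool.Agent.H84.VU

open NumberField IsDedekindDomain Height Finset MvPolynomial
open scoped Classical
open Pool.Agent.H57R3.VJ (NN NN_pos two_le_NN fin_of_bdd)
open Pool.Agent.H84.VA
open Pool.Agent.H84.VH (bb_size bb_inj bb_ne_zero card_Ix Ix bb height_int int_le_one)
open Pool.Agent.TH905.VF (ld ht)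
open Pool.Agent.H691R3 (fv)

section heights
variable {L : Type} [Field L] [NumberField L]

/-- powers with bounded exponents -/
lemma height_pows {ι : Type} [Finite ι] (u : L) (W : ℕ) (e : ι → ℕ) (he : ∀ i, e i ≤ W) :
    mulHeight (fun i => u ^ e i) ≤ mulHeight₁ u ^ W := by
  have h1 : (fun i => u ^ e i) = (fun σ : Fin W → Fin 2 => ∏ l, (![u, 1] : Fin 2 → L) (σ l)) ∘
      (fun i l => if (l : ℕ) < e i then 0 else 1) := by
    funext i
    simp only [Function.comp]
    have h2 : ∀ l : Fin W, (![u, 1] : Fin 2 → L) (if (l : ℕ) < e i then 0 else 1) =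
        if (l : ℕ) < e i then u else 1 := by
      intro l
      split_ifs <;> simp
    simp only [h2]
    rw [Fin.prod_univ_eq_prod_range (fun l : ℕ => if l < e i then u else 1) W, Finset.prod_ite,
      Finset.prod_const, Finset.prod_const_one, mul_one]
    congr 1
    have h3 : (range W).filter (fun l => l < e i) = range (e i) := by
      ext l
      rw [mem_filter, mem_range, mem_range]
      have := he i
      omega
    rw [h3, card_range]
  rw [h1]
  refine (mulHeight_comp_le _ _).trans ?_
  rw [mulHeight_fun_prod_eq (x := fun _ : Fin W => (![u, 1] : Fin 2 → L)) (fun _ h => by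
    have := congrFun h 1
    simp at this)]
  rw [Finset.prod_const, card_univ, Fintype.card_fin, mulHeight₁_eq_mulHeight]

lemma height_up {ι : Type} [Finite ι] [Nonempty ι] {u : L} (hu : u ≠ 0) {y : ι → L} (hy : ∀ i, y i ≠ 0)
    (w : ι → ℤ) (a : ℤ) (W : ℕ) (h0 : ∀ i, a ≤ w i) (h1 : ∀ i, w i ≤ a + W) :
    logHeight (fun i => u ^ w i * y i) ≤ W * logHeight₁ u + logHeight y := by
  set e : ι → ℕ := fun i => (w i - a).toNat with he
  have h2 : (fun i => u ^ w i * y i) = (u ^ a) • fun i => u ^ e i * y i := by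
    funext i
    rw [Pi.smul_apply, smul_eq_mul, ← mul_assoc]
    congr 1
    rw [← zpow_natCast, ← zpow_add₀ hu]
    congr 1
    have := h0 i
    simp only [he]
    omega
  rw [h2, logHeight_smul_eq_logHeight _ (zpow_ne_zero _ hu)]
  obtain ⟨i0⟩ := ‹Nonempty ι›
  have hy0 : y ≠ 0 := fun h => hy i0 (congrFun h i0)
  have he0 : (fun i => u ^ e i) ≠ 0 := fun h => pow_ne_zero (e i0) hu (congrFun h i0)
  have h3 : logHeight (fun i => u ^ e i * y i) ≤ logHeight (fun i => u ^ e i) + logHeight y := by
    rw [← logHeight_fun_mul_eq he0 hy0]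
    rw [logHeight_eq_log_mulHeight, logHeight_eq_log_mulHeight]
    apply Real.log_le_log (mulHeight_pos _)
    exact mulHeight_comp_le (fun i : ι => (i, i)) (fun a : ι × ι => u ^ e a.1 * y a.2)
  have h4 : logHeight (fun i => u ^ e i) ≤ W * logHeight₁ u := by
    rw [logHeight_eq_log_mulHeight, logHeight₁_eq_log_mulHeight₁, ← Real.log_pow]
    apply Real.log_le_log (mulHeight_pos _)
    apply height_pows
    intro i
    have := h1 i
    have := h0 i
    simp only [he]
    omega
  linarith

lemma height_lo {ι : Type} [Finite ι] {u : L} (hu : u ≠ 0) {y : ι → L} (hy : ∀ i, y i ≠ 0)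
    (w : ι → ℤ) (W : ℕ) {i1 i0 : ι} (h : w i1 = w i0 + W) :
    W * logHeight₁ u ≤ logHeight (fun i => u ^ w i * y i) + logHeight y := by
  set z : ι → L := fun i => u ^ w i * y i with hz
  have h1 : u ^ W = (z i1 / z i0) * (y i0 / y i1) := by
    have g1 := hy i1
    have g0 := hy i0
    have gu : u ^ w i0 ≠ 0 := zpow_ne_zero _ hu
    simp only [hz]
    rw [h, zpow_add₀ hu, zpow_natCast]
    field_simp
  have hr : ∀ (v : ι → L) (i j : ι), mulHeight₁ (v i / v j) ≤ mulHeight v := by
    intro v i j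
    rw [mulHeight₁_div_eq_mulHeight]
    have := mulHeight_comp_le ![i, j] v
    refine le_trans (le_of_eq ?_) this
    congr 1
    funext l
    fin_cases l <;> simp
  have h2 : mulHeight₁ u ^ W ≤ mulHeight z * mulHeight y := by
    rw [← mulHeight₁_pow, h1]
    exact (mulHeight₁_mul_le _ _).trans
      (mul_le_mul (hr z i1 i0) (hr y i0 i1) (mulHeight₁_nonneg _) (mulHeight_pos _).le)
  rw [logHeight_eq_log_mulHeight, logHeight_eq_log_mulHeight, logHeight₁_eq_log_mulHeight₁,
    ← Real.log_pow, ← Real.log_mul (mulHeight_pos _).ne' (mulHeight_pos _).ne']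
  exact Real.log_le_log (pow_pos (mulHeight₁_pos _) _) h2

lemma hom_scale {N : ℕ} (u : L) (w : Fin N → ℤ) (x : Fin N → L) :
    hom (fun i => u ^ w i * x i) = fun i => u ^ (Fin.cons 0 w : Fin (N + 1) → ℤ) i * hom x i := by
  funext i
  refine Fin.cases ?_ (fun j => ?_) i
  · simp [hom]
  · simp [hom]

end heights

variable {L : Type} [Field L] [NumberField L] {N : ℕ}
variable {K : Type} [Field K] [NumberField K] [Algebra K L]

theorem lower2 {w : Fin N → ℤ} (hw : w ≠ 0) (f : MvPolynomial (Fin N) K) {x : Fin N → L}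
    (hx0 : ∀ i, x i ≠ 0) (hf : aeval x f ≠ 0) (D1 : Finset L) :
    ∃ m X0 : ℝ, 0 < m ∧ 1 ≤ X0 ∧ ∀ X : ℝ, X0 ≤ X → ∃ U' : Finset L,
      (∀ u ∈ U', u ≠ 0 ∧ (∀ v : FinitePlace L, v u ≤ 1) ∧ mulHeight₁ u ≤ X ∧ u ∉ D1 ∧
        aeval (fun i => u ^ w i * x i) f ≠ 0) ∧
      m * X ≤ (U'.image fun u => fun i => u ^ w i * x i).card := by
  obtain ⟨i0, hi0⟩ := Function.ne_iff.1 hw
  obtain ⟨c, hc, hsize⟩ := bb_size L
  obtain ⟨D0, hD0⟩ := few_zeros (L := L) f hf w
  set D : Finset L := D0 ∪ D1 with hDdef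
  set d : ℕ := Module.finrank ℚ L with hd
  have hd0 : 0 < d := Module.finrank_pos
  have hd' : (d : ℝ) ≠ 0 := by exact_mod_cast hd0.ne'
  set G : ℝ := c ^ d with hG
  have hc0 : 0 < c := by linarith
  have hG0 : 0 < G := by positivity
  have hG1 : 1 ≤ G := one_le_pow₀ hc
  set n : ℕ := (w i0).natAbs with hn
  have hn0 : 0 < n := Int.natAbs_pos.2 hi0
  have hn' : (0 : ℝ) < n := by exact_mod_cast hn0
  have hDc : (0 : ℝ) ≤ 2 * G * D.card := by positivity
  refine ⟨1 / (2 * G * n), G + 2 * G * D.card, by positivity, by linarith, fun X hX => ?_⟩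
  have hX1 : G ≤ X := by linarith
  have hX3 : 2 * G * D.card ≤ X := by linarith
  have hX0 : 0 < X := by linarith
  set T : ℝ := (X / G) ^ ((1 : ℝ) / d) with hT
  have hXG : 1 ≤ X / G := by rw [le_div_iff₀ hG0]; linarith
  have hT1 : 1 ≤ T := Real.one_le_rpow hXG (by positivity)
  have hTd : T ^ d = X / G := by
    rw [hT, ← Real.rpow_natCast, ← Real.rpow_mul (by positivity), one_div_mul_cancel hd', Real.rpow_one]
  set J : Finset (Ix L → ℕ) := Fintype.piFinset fun _ => range (⌊T⌋₊ + 1) with hJ
  have hJc : X / G ≤ J.card := by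
    rw [hJ, Fintype.card_piFinset, Finset.prod_const, card_range, card_univ, card_Ix, ← hTd]
    push_cast
    exact pow_le_pow_left₀ (by linarith) (Nat.lt_floor_add_one T).le _
  set U : Finset L := J.image fun t => (algebraMap (𝓞 L) L (bb t)) with hU
  have hUc : U.card = J.card := by
    apply card_image_of_injective
    intro t t' h
    exact bb_inj (RingOfIntegers.coe_injective h)
  have hUp : ∀ u ∈ U, u ≠ 0 ∧ (∀ v : FinitePlace L, v u ≤ 1) ∧ mulHeight₁ u ≤ X := by
    intro u hu
    obtain ⟨t, ht, rfl⟩ := mem_image.1 hu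
    refine ⟨bb_ne_zero t, fun v => int_le_one v _, ?_⟩
    have h1 : ∀ j, (t j : ℝ) ≤ T := by
      intro j
      have := (Fintype.mem_piFinset.1 ht) j
      rw [mem_range] at this
      have h2 : t j ≤ ⌊T⌋₊ := by omega
      exact (Nat.le_floor_iff (by linarith)).1 h2
    have h2 := height_int (K := L) (b := bb t) (T := c * T) (by nlinarith)
      fun w' => hsize T t hT1 h1 w'
    refine h2.trans (le_of_eq ?_)
    rw [mul_pow, ← hd, hTd, hG]
    field_simp
  set U' := U \ D with hU'
  have hU'c : X / G - D.card ≤ U'.card := by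
    have h1 : U.card ≤ (U \ D).card + D.card := by
      have := le_card_sdiff D U
      omega
    have h2 : (U.card : ℝ) ≤ U'.card + D.card := by exact_mod_cast h1
    rw [hUc] at h2
    linarith
  refine ⟨U', ?_, ?_⟩
  · intro u hu
    rw [hU', Finset.mem_sdiff] at hu
    obtain ⟨h1, h2, h3⟩ := hUp u hu.1
    refine ⟨h1, h2, h3, fun h => hu.2 (mem_union_right _ h), fun h => hu.2 (mem_union_left _ (hD0 u h1 h))⟩
  · have h1 : U'.card ≤ n * (U'.image fun u => fun i => u ^ w i * x i).card := by
      apply card_le_mul_card_image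
      intro y _
      apply fibre_pow hi0 (y i0 / x i0)
      intro u hu
      obtain ⟨hu1, hu2⟩ := mem_filter.1 hu
      rw [hU', Finset.mem_sdiff] at hu1
      refine ⟨(hUp u hu1.1).1, ?_⟩
      rw [← hu2]
      simp only
      rw [mul_div_assoc, div_self (hx0 i0), mul_one]
    have h2 : (U'.card : ℝ) ≤ n * ((U'.image fun u => fun i => u ^ w i * x i).card : ℝ) := by
      exact_mod_cast h1
    have h3 : X / (2 * G) ≤ U'.card := by
      refine le_trans ?_ hU'c
      have h4 : (D.card : ℝ) ≤ X / (2 * G) := by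
        rw [le_div_iff₀ (by positivity)]
        linarith
      have h5 : X / G = X / (2 * G) + X / (2 * G) := by field_simp; ring
      linarith
    have h6 : 1 / (2 * G * n) * X = X / (2 * G) / n := by field_simp
    rw [h6, div_le_iff₀ hn']
    linarith

end Pool.Agent.H84.VU
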