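import Mathlib
import Pool.Agent.H84.VU.K

/-!
# No power saving for stable subvarieties
-/

set_option autoImplicit false
set_option linter.unusedSectionVars false

namespace Pool.Agent.H84.VU

open NumberField IsDedekindDomain Height Finset MvPolynomial
open scoped Classical
open Pool.Agent.H84.VA
open Pool.Agent.TH905.VF (ld ht)

variable {k : Type} [Field k] [NumberField k] {N : ℕ}

lemma too_big {C m δ X0 : ℝ} (hm : 0 < m) (hδ : 0 < δ) (hC : 0 ≤ C)
    (h : ∀ X : ℝ, X0 ≤ X → 1 ≤ X → m * X ≤ C * X ^ (1 - δ)) : False := by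
  set Y : ℝ := (C / m + 1) ^ (1 / δ) with hY
  have hb : 1 ≤ C / m + 1 := by
    have : 0 ≤ C / m := by positivity
    linarith
  have hY1 : 1 ≤ Y := Real.one_le_rpow hb (by positivity)
  set X : ℝ := max X0 Y with hX
  have hX1 : 1 ≤ X := hY1.trans (le_max_right _ _)
  have hX0 : 0 < X := by linarith
  have h1 := h X (le_max_left _ _) hX1
  have h2 : X = X ^ (1 - δ) * X ^ δ := by
    rw [← Real.rpow_add hX0]
    simp
  have h3 : 0 < X ^ (1 - δ) := Real.rpow_pos_of_pos hX0 _
  have h4 : C / m + 1 ≤ X ^ δ := by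
    calc C / m + 1 = Y ^ δ := by
          rw [hY, ← Real.rpow_mul (by linarith), one_div_mul_cancel hδ.ne', Real.rpow_one]
      _ ≤ X ^ δ := Real.rpow_le_rpow (by linarith) (le_max_right _ _) hδ.le
  have h5 : m * X ^ δ ≤ C := by
    by_contra hcon
    push Not at hcon
    have : C * X ^ (1 - δ) < m * X := by
      conv_rhs => rw [h2]
      nlinarith
    linarith
  have h6 : m * (C / m + 1) ≤ C := (mul_le_mul_of_nonneg_left h4 hm.le).trans h5
  have h7 : m * (C / m + 1) = C + m := by field_simp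
  linarith

theorem converse {I : Ideal (MvPolynomial (Fin N) k)} (hp : I.IsPrime) (hX : ∀ i, X i ∉ I)
    {w : Fin N → ℤ} (hw : w ≠ 0) (hst : StableUnder I w) {f : MvPolynomial (Fin N) k} (hf : f ∉ I)
    {ν : ℝ} (hν : 0 < ν)
    (h : ∀ (S : Finset (HeightOneSpectrum (𝓞 k))) (θ c ε : ℝ), 0 ≤ θ → 0 < ε → ∃ M : ℝ, 0 < M ∧
        ∀ (L : Type) [Field L] [NumberField L] [Algebra k L], ∀ B : ℝ, 1 ≤ B →
          (Exc I f S θ c L B).Finite ∧ ((Exc I f S θ c L B).ncard : ℝ) ≤
            (M * B ^ (θ * (1 - ν) + ε)) ^ Module.finrank k L / |(discr L : ℝ)| ^ (1 - ν)) : False := by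
  obtain ⟨L, _, _, _, x, hx0, hx, hxf⟩ := exists_point I hp hX f hf
  -- the width
  set w' : Fin (N + 1) → ℤ := Fin.cons 0 w with hw'
  obtain ⟨i1, _, hi1⟩ := exists_max_image (univ : Finset (Fin (N + 1))) w' ⟨0, mem_univ _⟩
  obtain ⟨i0, _, hi0⟩ := exists_min_image (univ : Finset (Fin (N + 1))) w' ⟨0, mem_univ _⟩
  set W : ℕ := (w' i1 - w' i0).toNat with hW
  have hle : w' i0 ≤ w' i1 := hi0 i1 (mem_univ _)
  have hWz : (W : ℤ) = w' i1 - w' i0 := Int.toNat_of_nonneg (by omega)
  have hW1 : 1 ≤ W := by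
    obtain ⟨j, hj⟩ := Function.ne_iff.1 hw
    have hj' : w j ≠ 0 := hj
    have a1 := hi1 j.succ (mem_univ _)
    have a2 := hi0 j.succ (mem_univ _)
    have a3 := hi1 0 (mem_univ _)
    have a4 := hi0 0 (mem_univ _)
    have e1 : w' j.succ = w j := by simp [hw']
    have e2 : w' 0 = 0 := by simp [hw']
    rw [e1] at a1 a2
    rw [e2] at a3 a4
    omega
  have hW0 : (0 : ℝ) < W := by exact_mod_cast hW1
  set θ : ℝ := (1 + ν) / W with hθ
  set ε : ℝ := ν ^ 2 / (2 * W) with hε
  have hθ0 : 0 < θ := by positivity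
  have hθW : θ * W = 1 + ν := div_mul_cancel₀ _ hW0.ne'
  obtain ⟨M, hM, hbd⟩ := h ∅ θ 0 ε hθ0.le (by positivity)
  set d : ℕ := Module.finrank k L with hd
  have hd0 : (0 : ℝ) < d := by exact_mod_cast (Module.finrank_pos : 0 < Module.finrank k L)
  set C0 : ℝ := logHeight (hom x) with hC0
  have hC0' : 0 ≤ C0 := by
    rw [hC0, logHeight_eq_log_mulHeight]
    exact Real.log_nonneg (one_le_mulHeight _)
  set Y0 : ℝ := (d * ld k L + N1 ∅ x + θ * C0) / ν with hY0
  have hfin : {u : L | mulHeight₁ u ≤ Real.exp Y0}.Finite :=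
    NumberField.finite_setOfPred_mulHeight₁_le L _
  obtain ⟨m, X0, hm, hX0, hlow⟩ := lower2 hw f hx0 hxf hfin.toFinset
  set g : ℝ := θ * (1 - ν) + ε with hg
  have hgW : g * W = 1 - ν ^ 2 / 2 := by
    have : ε * W = ν ^ 2 / 2 := by rw [hε]; field_simp
    rw [hg, add_mul, this, mul_right_comm, hθW]
    ring
  have hdL : 0 < |(discr L : ℝ)| := abs_pos.2 (by exact_mod_cast discr_ne_zero L)
  have hdL' : 0 < |(discr L : ℝ)| ^ (1 - ν) := Real.rpow_pos_of_pos hdL _
  apply too_big (C := M ^ d * Real.exp (g * C0) / |(discr L : ℝ)| ^ (1 - ν)) (δ := ν ^ 2 / 2)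
    (X0 := X0) hm (by positivity) (by positivity)
  intro Y hY hY1
  obtain ⟨U', hU1, hU2⟩ := hlow Y hY
  have hYp : 0 < Y := by linarith
  have hlY : 0 ≤ Real.log Y := Real.log_nonneg hY1
  set B : ℝ := Real.exp ((W * Real.log Y + C0) / d) with hB
  have hB1 : 1 ≤ B := Real.one_le_exp (by positivity)
  obtain ⟨hfin2, hcard⟩ := hbd L B hB1
  have hsub : (U'.image fun u => fun i => u ^ w i * x i : Finset (Fin N → L)) ⊆ hfin2.toFinset := by
    intro y hy
    obtain ⟨u, hu, rfl⟩ := mem_image.1 hy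
    obtain ⟨g1, g2, g3, g4, g5⟩ := hU1 u hu
    rw [Set.Finite.mem_toFinset]
    have hy0 : ∀ i, u ^ w i * x i ≠ 0 := fun i => mul_ne_zero (zpow_ne_zero _ g1) (hx0 i)
    have hup : logHeight (hom fun i => u ^ w i * x i) ≤ W * logHeight₁ u + C0 := by
      rw [hom_scale]
      apply height_up g1 (hom_ne hx0) w' (w' i0) W (fun i => hi0 i (mem_univ _))
      intro i
      have := hi1 i (mem_univ _)
      omega
    have hlo : W * logHeight₁ u ≤ logHeight (hom fun i => u ^ w i * x i) + C0 := by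
      rw [hom_scale]
      exact height_lo g1 (hom_ne hx0) w' W (i1 := i1) (i0 := i0) (by omega)
    have hlu : logHeight₁ u ≤ Real.log Y := by
      rw [logHeight₁_eq_log_mulHeight₁]
      exact Real.log_le_log (mulHeight₁_pos _) g3
    have hbig : Y0 < logHeight₁ u := by
      rw [Set.Finite.mem_toFinset, Set.mem_ofPred_eq, not_le] at g4
      rw [logHeight₁_eq_log_mulHeight₁]
      exact (Real.lt_log_iff_exp_lt (mulHeight₁_pos _)).2 g4
    refine ⟨hy0, fun q hq => stable_at hst hx hx0 g1 q hq, g5, ?_, ?_⟩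
    · have e : (Module.finrank k L : ℝ) * Real.log B = W * Real.log Y + C0 := by
        rw [hB, Real.log_exp]
        exact mul_div_cancel₀ _ hd0.ne'
      rw [e]
      have := mul_le_mul_of_nonneg_left hlu hW0.le
      linarith
    · refine ⟨1, L, inferInstance, inferInstance, inferInstance, Algebra.id L, inferInstance,
        fun i => u ^ w i * x i, one_ne_zero, fun i => by rw [pow_one]; rfl, ?_⟩
      rw [trunc_empty hy0]
      have hN := N1_scale ∅ hx0 w g1 g2
      rw [← logHeight₁_eq_log_mulHeight₁] at hN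
      have hh : ht k (hom fun i => u ^ w i * x i) =
          logHeight (hom fun i => u ^ w i * x i) / d := rfl
      rw [hh, Nat.cast_one, one_mul, add_zero, ← mul_div_assoc, lt_div_iff₀ hd0, add_mul,
        div_mul_cancel₀ _ hd0.ne']
      have k1 : ν * Y0 = d * ld k L + N1 ∅ x + θ * C0 := by
        rw [hY0]
        exact mul_div_cancel₀ _ hν.ne'
      have k2 : ν * Y0 < ν * logHeight₁ u := mul_lt_mul_of_pos_left hbig hν
      have k3 : θ * (W * logHeight₁ u) ≤ θ * (logHeight (hom fun i => u ^ w i * x i) + C0) :=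
        mul_le_mul_of_nonneg_left hlo hθ0.le
      have k4 : θ * (W * logHeight₁ u) = (1 + ν) * logHeight₁ u := by rw [← mul_assoc, hθW]
      linarith
  have h1 : m * Y ≤ ((Exc I f ∅ θ 0 L B).ncard : ℝ) := by
    refine hU2.trans ?_
    rw [Set.ncard_eq_toFinset_card _ hfin2]
    exact_mod_cast card_le_card hsub
  have hB0 : 0 < B := by linarith
  have h2 : (M * B ^ g) ^ d = M ^ d * Real.exp (g * C0) * Y ^ (1 - ν ^ 2 / 2) := by
    rw [← hgW, Real.rpow_def_of_pos hYp, Real.rpow_def_of_pos hB0, hB, Real.log_exp, mul_pow,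
      ← Real.exp_nat_mul, mul_assoc, ← Real.exp_add]
    congr 2
    field_simp
    ring
  refine (h1.trans hcard).trans (le_of_eq ?_)
  rw [← hd, h2]
  ring

end Pool.Agent.H84.VU
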